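import Mathlib
import Pool.Agent.H647Z.TukeyFDefs
import Pool.Agent.H647Z.TukeyF2

set_option autoImplicit false

namespace Pool.Agent.Results.MP_522602_lc.AForcedNo

open Pool.Agent.H647Z.TukeyF

/-- There is a forcing notion adding no reals, all of whose conditions force that some ultrafilter
on the natural numbers is Tukey-top and fails diamond-minus. -/
theorem result : ∃ (P : Type) (_ : Preorder P), Nonempty P ∧ ∀ p : P, p ∈ NoNew P ∧
    p ∈ fex fun U : Set ℕ → Set P =>
      fand (IsUltra U) (fand (TukeyTop U) (fnot (DiamondMinus U))) :=
  main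

end Pool.Agent.Results.MP_522602_lc.AForcedNo
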