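import Mathlib
import Pool.Agent.H647Z.TukeyDefs
import Pool.Agent.H647Z.TukeyMain
import Pool.Agent.Helper292.ForceCH

set_option autoImplicit false

open Cardinal

namespace Pool.Agent.Results.MP_522602_lc.BUnderCH

open Pool.Agent.H647Z.Tukey Pool.Agent.Helper292

/-- The continuum hypothesis is forceable, and it gives a Tukey-top ultrafilter on the natural
numbers for which diamond-minus fails. -/
theorem result :
    ((𝔠 : Cardinal.{0}) = ℵ₁ → ∃ U : Ultrafilter ℕ, TukeyTop U ∧ ¬ DiamondMinus U) ∧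
    (∃ (P : Type) (_ : Preorder P), Nonempty P ∧
      ∀ p : P, p ∈ ForceCH.OmegaOnePreserved P ∧ p ∈ ForceCH.CHHolds P) := by
  refine ⟨main, ?_⟩
  obtain ⟨P, i, h1, h2⟩ := ForceCH.exists_forcing
  exact ⟨P, i, h1, fun p => ⟨(h2 p).1, (h2 p).2.2⟩⟩

end Pool.Agent.Results.MP_522602_lc.BUnderCH
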